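import Pool.Agent.Helper15_SIU.Stmts

/-!
# MP_021b97_an, module TNP: the current `-T` is not positive
-/

set_option autoImplicit false

open MeasureTheory Filter Topology

namespace Pool.Agent.SIU.H43

open Pool.Agent.SIU

/-- value of `dd^c f` on `(v, i v)` -/
theorem ddc_line (f : E7 → ℝ) (z : E7) (hf : ContDiffAt ℝ 2 f z) (v : Fin 2 → E7)
    (hv : v 1 = Complex.I • v 0) :
    ddc (fun w => cst 7 (f w)) z v =
      fderiv ℝ (fun w => fderiv ℝ f w (v 0)) z (v 0) +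
        fderiv ℝ (fun w => fderiv ℝ f w (v 1)) z (v 1) := by
  have h1 : ∀ w, extDeriv (fun w => cst 7 (f w)) w =
      ContinuousAlternatingMap.ofSubsingleton _ _ _ (0 : Fin 1) (fderiv ℝ f w) := fun w =>
    extDeriv_constOfIsEmpty f w
  have hd : DifferentiableAt ℝ (fderiv ℝ f) z := by
    have h2 : ContDiffAt ℝ 1 (fderiv ℝ f) z := hf.fderiv_right (by norm_num)
    exact h2.differentiableAt (by norm_num)
  have h3 : (fun w => (extDeriv (fun w => cst 7 (f w)) w).compContinuousLinearMap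
      (mulC 7 Complex.I)) = fun w => ((ContinuousAlternatingMap.ofSubsingleton ℝ E7 ℝ
        (0 : Fin 1) (fderiv ℝ f w)).compContinuousLinearMap (mulC 7 Complex.I)) := by
    funext w
    rw [h1]
  have hdiff : DifferentiableAt ℝ (fun w => ((ContinuousAlternatingMap.ofSubsingleton ℝ E7 ℝ
        (0 : Fin 1) (fderiv ℝ f w)).compContinuousLinearMap (mulC 7 Complex.I))) z := by
    have e : (fun w => ((ContinuousAlternatingMap.ofSubsingleton ℝ E7 ℝ
        (0 : Fin 1) (fderiv ℝ f w)).compContinuousLinearMap (mulC 7 Complex.I))) =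
        fun w => (ContinuousAlternatingMap.compContinuousLinearMapCLM (mulC 7 Complex.I) :
          Alt 7 1 →L[ℝ] Alt 7 1)
          (((ContinuousAlternatingMap.ofSubsingletonLIE (0 : Fin 1) :
            (E7 →L[ℝ] ℝ) ≃ₗᵢ[ℝ] Alt 7 1).toContinuousLinearEquiv :
            (E7 →L[ℝ] ℝ) ≃L[ℝ] Alt 7 1) (fderiv ℝ f w)) := rfl
    rw [e]
    exact (ContinuousLinearMap.differentiableAt _).comp z
      ((ContinuousLinearEquiv.differentiableAt _).comp z hd)
  unfold ddc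
  rw [h3]
  show -(extDeriv _ z v) = _
  rw [extDeriv_apply hdiff, Fin.sum_univ_two]
  have e0 : (fun w => ((ContinuousAlternatingMap.ofSubsingleton ℝ E7 ℝ
        (0 : Fin 1) (fderiv ℝ f w)).compContinuousLinearMap (mulC 7 Complex.I))
        ((0 : Fin 2).removeNth v)) = fun w => -fderiv ℝ f w (v 0) := by
    funext w
    show fderiv ℝ f w (mulC 7 Complex.I (v 1)) = _
    have : mulC 7 Complex.I (v 1) = - v 0 := by
      rw [hv]
      show Complex.I • (Complex.I • v 0) = - v 0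
      rw [smul_smul, Complex.I_mul_I, neg_one_smul]
    rw [this, map_neg]
  have e1 : (fun w => ((ContinuousAlternatingMap.ofSubsingleton ℝ E7 ℝ
        (0 : Fin 1) (fderiv ℝ f w)).compContinuousLinearMap (mulC 7 Complex.I))
        ((1 : Fin 2).removeNth v)) = fun w => fderiv ℝ f w (v 1) := by
    funext w
    show fderiv ℝ f w (mulC 7 Complex.I (v 0)) = _
    rw [hv]
    rfl
  rw [e0, e1, fderiv_fun_neg]
  simp
  ring

/-- real part of a coordinate -/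
noncomputable def rC (j : Fin 7) : E7 →L[ℝ] ℝ :=
  Complex.reCLM.comp ((ContinuousLinearMap.proj j : E7 →L[ℂ] ℂ).restrictScalars ℝ)
/-- imaginary part of a coordinate -/
noncomputable def iC (j : Fin 7) : E7 →L[ℝ] ℝ :=
  Complex.imCLM.comp ((ContinuousLinearMap.proj j : E7 →L[ℂ] ℂ).restrictScalars ℝ)

theorem rC_apply (j : Fin 7) (w : E7) : rC j w = (w j).re := rfl
theorem iC_apply (j : Fin 7) (w : E7) : iC j w = (w j).im := rfl

theorem AA_eq (w : E7) : AA w = (rC 0 w) ^ 2 + (iC 0 w) ^ 2 + ((rC 1 w) ^ 2 + (iC 1 w) ^ 2) := by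
  unfold AA
  rw [Complex.sq_norm, Complex.sq_norm, Complex.normSq_apply, Complex.normSq_apply]
  simp only [rC_apply, iC_apply]
  ring

theorem hasFDerivAt_AA (w : E7) : HasFDerivAt AA ((2 * rC 0 w) • rC 0 + (2 * iC 0 w) • iC 0 +
    ((2 * rC 1 w) • rC 1 + (2 * iC 1 w) • iC 1)) w := by
  have h : AA = fun w => (rC 0 w) ^ 2 + (iC 0 w) ^ 2 + ((rC 1 w) ^ 2 + (iC 1 w) ^ 2) :=
    funext AA_eq
  rw [h]
  have key : ∀ l : E7 →L[ℝ] ℝ, HasFDerivAt (fun w => (l w) ^ 2) ((2 * l w) • l) w := by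
    intro l
    have := (l.hasFDerivAt (x := w)).pow 2
    simpa using this
  exact ((key _).add (key _)).add ((key _).add (key _))

theorem e0_0 : e0 0 = 1 := rfl
theorem e0_1 : e0 1 = 0 := rfl

theorem fderiv_log (w : E7) (hw : AA w ≠ 0) :
    fderiv ℝ (fun w => Real.log (AA w)) w e0 = (AA w)⁻¹ * (2 * rC 0 w) ∧
    fderiv ℝ (fun w => Real.log (AA w)) w (Complex.I • e0) = (AA w)⁻¹ * (2 * iC 0 w) := by
  have h := ((hasFDerivAt_AA w).log hw).fderiv
  rw [h]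
  constructor <;> simp [rC_apply, iC_apply, e0_0, e0_1]

/-- the value of `kL` on `(e0, i e0)` -/
theorem kL_line (z : E7) (hz : AA z ≠ 0) (v : Fin 2 → E7) (hv0 : v 0 = e0)
    (hv1 : v 1 = Complex.I • e0) :
    kL z v = 4 * ‖z 1‖ ^ 2 / (AA z) ^ 2 := by
  have hsm : ContDiffAt ℝ 2 (fun w => Real.log (AA w)) z := by
    have : ContDiff ℝ 2 AA := by
      have h : AA = fun w => (rC 0 w) ^ 2 + (iC 0 w) ^ 2 + ((rC 1 w) ^ 2 + (iC 1 w) ^ 2) :=
        funext AA_eq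
      rw [h]
      fun_prop
    exact this.contDiffAt.log hz
  have h1 := ddc_line (fun w => Real.log (AA w)) z hsm v (by rw [hv0, hv1])
  show ddc (fun w => cst 7 (Real.log (AA w))) z v = _
  rw [h1, hv0, hv1]
  have hopen : ∀ᶠ w in 𝓝 z, AA w ≠ 0 :=
    (isOpen_ne_fun continuous_AA continuous_const).mem_nhds hz
  have e1 : (fun w => fderiv ℝ (fun w => Real.log (AA w)) w e0) =ᶠ[𝓝 z]
      fun w => (AA w)⁻¹ * (2 * rC 0 w) := by
    filter_upwards [hopen] with w hw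
    exact (fderiv_log w hw).1
  have e2 : (fun w => fderiv ℝ (fun w => Real.log (AA w)) w (Complex.I • e0)) =ᶠ[𝓝 z]
      fun w => (AA w)⁻¹ * (2 * iC 0 w) := by
    filter_upwards [hopen] with w hw
    exact (fderiv_log w hw).2
  rw [e1.fderiv_eq, e2.fderiv_eq]
  have hinv := (hasDerivAt_inv hz).comp_hasFDerivAt z (hasFDerivAt_AA z)
  have f1 : HasFDerivAt (fun w => (AA w)⁻¹ * (2 * rC 0 w)) _ z :=
    HasFDerivAt.mul hinv ((rC 0).hasFDerivAt.const_mul 2)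
  have f2 : HasFDerivAt (fun w => (AA w)⁻¹ * (2 * iC 0 w)) _ z :=
    HasFDerivAt.mul hinv ((iC 0).hasFDerivAt.const_mul 2)
  rw [f1.fderiv, f2.fderiv]
  have hA := AA_eq z
  have hn : ‖z 1‖ ^ 2 = (rC 1 z) ^ 2 + (iC 1 z) ^ 2 := by
    rw [Complex.sq_norm, Complex.normSq_apply, rC_apply, iC_apply]
    ring
  rw [hn]
  have hr0 : rC 0 e0 = 1 := by simp [rC_apply, e0_0]
  have hi0 : iC 0 e0 = 0 := by simp [iC_apply, e0_0]
  have hr1 : rC 1 e0 = 0 := by simp [rC_apply, e0_1]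
  have hi1 : iC 1 e0 = 0 := by simp [iC_apply, e0_1]
  have hr0' : rC 0 (Complex.I • e0) = 0 := by simp [rC_apply, e0_0]
  have hi0' : iC 0 (Complex.I • e0) = 1 := by simp [iC_apply, e0_0]
  have hr1' : rC 1 (Complex.I • e0) = 0 := by simp [rC_apply, e0_1]
  have hi1' : iC 1 (Complex.I • e0) = 0 := by simp [iC_apply, e0_1]
  simp only [add_apply, smul_apply, smul_eq_mul, hr0, hi0, hr1, hi1, hr0', hi0', hr1', hi1']
  generalize AA z = A at *
  field_simp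
  nlinarith [hA]

theorem w1_one (c : E7 →L[ℝ] ℝ) (u : Fin 1 → E7) : w1 c (cst 7 1) u = c (u 0) := by
  unfold w1
  rw [ContinuousAlternatingMap.alternatizeUncurryFin_apply, Fin.sum_univ_one]
  show (-1) ^ ((0 : Fin 1) : ℕ) • (c (u 0) • (1 : ℝ)) = c (u 0)
  simp

theorem cc2_apply (b c : E7 →L[ℝ] ℝ) (v : Fin 2 → E7) :
    cc2 b c v = b (v 0) * c (v 1) - b (v 1) * c (v 0) := by
  unfold cc2
  have h : ∀ (a : Alt 7 1), w1 b a v = b (v 0) * a (fun _ => v 1) - b (v 1) * a (fun _ => v 0) := by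
    intro a
    unfold w1
    rw [ContinuousAlternatingMap.alternatizeUncurryFin_apply, Fin.sum_univ_two]
    have h0 : (0 : Fin 2).removeNth v = fun _ => v 1 := by
      funext i; fin_cases i; rfl
    have h1 : (1 : Fin 2).removeNth v = fun _ => v 0 := by
      funext i; fin_cases i; rfl
    rw [h0, h1]
    show (-1) ^ ((0 : Fin 2) : ℕ) • (b (v 0) • a _) + (-1) ^ ((1 : Fin 2) : ℕ) • (b (v 1) • a _) = _
    simp
    ring
  rw [h, w1_one, w1_one]

theorem integrable_fs : Integrable (fun ζ : ℂ => 4 * ((1 : ℝ) + ‖ζ‖ ^ 2) ^ (-(4 : ℝ) / 2)) := by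
  refine (integrable_rpow_neg_one_add_norm_sq ?_).const_mul 4
  rw [Complex.finrank_real_complex]
  norm_num

theorem fs_pos : 0 < ∫ ζ : ℂ, 4 * ((1 : ℝ) + ‖ζ‖ ^ 2) ^ (-(4 : ℝ) / 2) := by
  have hp : ∀ ζ : ℂ, 0 < 4 * ((1 : ℝ) + ‖ζ‖ ^ 2) ^ (-(4 : ℝ) / 2) := fun ζ => by positivity
  rw [integral_pos_iff_support_of_nonneg (fun ζ => (hp ζ).le) integrable_fs]
  have : Function.support (fun ζ : ℂ => 4 * ((1 : ℝ) + ‖ζ‖ ^ 2) ^ (-(4 : ℝ) / 2)) = Set.univ := by
    rw [Set.eq_univ_iff_forall]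
    exact fun ζ => (hp ζ).ne'
  rw [this]
  simp

theorem pt_mem (ζ : ℂ) (y : ℝ) : pt ζ y ∈ X2.U := by
  rw [mem_U]
  refine ⟨Or.inr ?_, Or.inr (Or.inr ?_), Or.inr ?_⟩ <;> simp [pt]

theorem kL_pt (ζ : ℂ) (y : ℝ) :
    kL (pt ζ y) (cvec (fun _ => e0) (2 * 1)) = 4 * ((1 : ℝ) + ‖ζ‖ ^ 2) ^ (-(4 : ℝ) / 2) := by
  have hA : AA (pt ζ y) = ‖ζ‖ ^ 2 + 1 := by
    unfold AA
    have h0 : pt ζ y 0 = ζ := rfl
    have h1 : pt ζ y 1 = 1 := rfl
    rw [h0, h1]
    simp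
  have h := kL_line (pt ζ y) (AA_pos (pt_mem ζ y)).ne' (cvec (fun _ => e0) (2 * 1))
    (by simp [cvec]) (by simp [cvec])
  rw [h, hA]
  have h1 : ‖pt ζ y 1‖ = 1 := by
    have h1 : pt ζ y 1 = 1 := rfl
    rw [h1]; simp
  rw [h1]
  have hp : 0 < 1 + ‖ζ‖ ^ 2 := by positivity
  have : ((1 : ℝ) + ‖ζ‖ ^ 2) ^ (-(4 : ℝ) / 2) = ((1 + ‖ζ‖ ^ 2) ^ 2)⁻¹ := by
    rw [show (-(4 : ℝ) / 2) = -((2 : ℕ) : ℝ) by norm_num, Real.rpow_neg hp.le, Real.rpow_natCast]
  rw [this, add_comm]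
  simp [div_eq_mul_inv]

theorem det2 (M : Fin (2 * 1) → Fin (2 * 1) → ℝ) :
    Matrix.det (n := Fin (2 * 1)) (fun i j => M i j) = M 0 0 * M 1 1 - M 0 1 * M 1 0 :=
  Matrix.det_fin_two (Matrix.of M)

theorem tnp (hkfm : KfmStmt) (hkdc : KdcStmt) : TnpStmt := by
  classical
  intro 𝕂 hc hv T hT hpos
  obtain ⟨hb, hs⟩ := hkfm.2.2.1 kL (by simp)
  obtain ⟨m, l, w, i₀, i₁, -, hkL, -⟩ := hkdc
  let β : X2.Form (2 * 1) := ⟨fun z => if z ∈ X2.U then kL z else 0, by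
    refine ⟨?_, ⟨?_, ?_⟩, ?_⟩
    · refine hs.continuousOn.congr ?_
      intro w hw
      exact if_pos hw
    · intro z hz c hc v
      show (if X2.act c z ∈ X2.U then kL (X2.act c z) else 0) (fun i => X2.act c (v i)) =
          (if z ∈ X2.U then kL z else 0) v
      rw [if_pos hz, if_pos ((act_mem_U hc z).mpr hz)]
      exact hb.1 z hz c hc v
    · intro z hz v i hv
      show (if z ∈ X2.U then kL z else 0) v = 0
      rw [if_pos hz]
      exact hb.2 z hz v i hv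
    · intro z hz
      exact if_neg hz⟩
  have h1 : 0 ≤ (-T) β := by
    refine hpos.2 β ?_
    intro z hz
    have hβ : β.1 z = kL z := if_pos hz
    rw [hβ]
    refine ⟨1, fun _ => 4, fun _ _ => (l i₀ z).toLinearMap, fun _ => by norm_num, ?_⟩
    intro v
    rw [hkL z hz]
    rw [Fin.sum_univ_one]
    show (4 : ℝ) • cc2 (reL (l i₀ z)) (imL (l i₀ z)) v = _
    rw [cc2_apply, smul_eq_mul]
    congr 1
    refine Eq.trans ?_ (det2 _).symm
    simp [reL, imL]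
  have h2 : T β = (volume 𝕂).toReal * ∫ ζ : ℂ, 4 * ((1 : ℝ) + ‖ζ‖ ^ 2) ^ (-(4 : ℝ) / 2) := by
    rw [hT β]
    have h3 : ∀ y : ℝ, ∫ ζ : ℂ, β.1 (pt ζ y) (cvec (fun _ => e0) (2 * 1)) =
        ∫ ζ : ℂ, 4 * ((1 : ℝ) + ‖ζ‖ ^ 2) ^ (-(4 : ℝ) / 2) := by
      intro y
      refine integral_congr_ae (Eventually.of_forall fun ζ => ?_)
      have hβ : β.1 (pt ζ y) = kL (pt ζ y) := if_pos (pt_mem ζ y)
      show β.1 (pt ζ y) _ = _
      rw [hβ]
      exact kL_pt ζ y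
    simp only [h3]
    rw [setIntegral_const, smul_eq_mul]
    rfl
  have h4 : 0 < (volume 𝕂).toReal := ENNReal.toReal_pos hv.ne' hc.measure_lt_top.ne
  have h5 : (-T) β = -(T β) := rfl
  have h6 := mul_pos h4 fs_pos
  rw [h5, h2] at h1
  linarith

end Pool.Agent.SIU.H43
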