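import Pool.Agent.Helper15_SIU.Stmts

/-!
# MP_021b97_an, module TDS: positive closed currents are DSH
-/

set_option autoImplicit false

open MeasureTheory Filter Topology

namespace Pool.Agent.SIU.H43

open Pool.Agent.SIU

/-- the linear map `a ↦ a ∘ J` on forms -/
noncomputable def compJ (k : ℕ) : Alt 7 k →L[ℝ] Alt 7 k :=
  ContinuousAlternatingMap.compContinuousLinearMapCLM (mulC 7 Complex.I)

theorem compJ_apply (k : ℕ) (a : Alt 7 k) :
    compJ k a = a.compContinuousLinearMap (mulC 7 Complex.I) := rfl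

/-- the exterior derivative of a smooth form on an open set is smooth -/
theorem smooth_extDeriv {k : ℕ} {φ : E7 → Alt 7 k} (h : X2.Smooth φ) :
    X2.Smooth (extDeriv φ) := by
  have h1 : ContDiffOn ℝ ((⊤ : ℕ∞) : WithTop ℕ∞) (fderiv ℝ φ) X2.U :=
    ContDiffOn.fderiv_of_isOpen h isOpen_U (by exact le_rfl)
  have h2 : extDeriv φ = fun z => ContinuousAlternatingMap.alternatizeUncurryFinCLM ℝ E7 ℝ
      (fderiv ℝ φ z) := rfl
  show ContDiffOn ℝ _ (extDeriv φ) X2.U
  rw [h2]
  exact (ContinuousLinearMap.contDiff _).comp_contDiffOn h1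

theorem smooth_compJ {k : ℕ} {φ : E7 → Alt 7 k} (h : X2.Smooth φ) :
    X2.Smooth (fun z => (φ z).compContinuousLinearMap (mulC 7 Complex.I)) :=
  (compJ k).contDiff.comp_contDiffOn h

theorem tds (hbsd : BsdStmt) : TdsStmt := by
  classical
  intro T hpos hcl
  have zpos : ∀ q, X2.PosCur (0 : X2.Current q) :=
    fun q => ⟨fun _ _ _ _ _ => rfl, fun _ _ => le_refl _⟩
  have zcl : ∀ q, X2.ClosedCur (0 : X2.Current q) := fun q k hk η hη β hβ => rfl
  have hact : ∀ w ∈ X2.U, ∀ c : Fin 3 → ℂ, (∀ j, c j ≠ 0) → X2.act c w ∈ X2.U :=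
    fun w hw c hc => (act_mem_U hc w).mpr hw
  obtain ⟨hb1, -, hb3⟩ := hbsd 7 3 4 X2 X2.U isOpen_U hact
  obtain ⟨c, hc⟩ : ∃ c, X2.MassLE T c := by
    by_cases h : ∃ β : X2.Form (2 * 1), ∀ z ∈ X2.U, β.1 z = X2.kpow 1 z
    · obtain ⟨β0, h0⟩ := h
      refine ⟨T β0, fun β hβ => ?_⟩
      have : β = β0 := Subtype.ext (funext fun z => by
        by_cases hz : z ∈ X2.U
        · rw [hβ z hz, h0 z hz]
        · rw [β.2.2.2 z hz, β0.2.2.2 z hz])
      rw [this]
    · exact ⟨0, fun β hβ => absurd ⟨β, hβ⟩ h⟩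
  have hddc : X2.IsDdc (q := 0) T (0 - 0) := by
    refine ⟨fun _ _ _ _ _ => rfl, ?_⟩
    intro φ hφ _ β hβ
    rw [sub_zero]
    show (0 : ℝ) = T β
    symm
    -- the primitive
    let θ : E7 → Alt 7 (2 * 0 + 1) := fun w =>
      (-1 : ℝ) • (extDeriv φ.1 w).compContinuousLinearMap (mulC 7 Complex.I)
    have hθs : X2.Smooth θ := by
      have := smooth_compJ (smooth_extDeriv hφ)
      exact ContDiffOn.const_smul (-1 : ℝ) this
    have hφd : DifferentiableOn ℝ φ.1 X2.U := ContDiffOn.differentiableOn hφ (by simp)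
    have hθb : X2.BasicOn X2.U (fun w =>
        (extDeriv φ.1 w).compContinuousLinearMap (mulC 7 Complex.I)) :=
      hb3 _ _ Complex.I (hb1 _ _ hφd φ.2.2.1)
    let η : X2.Form (2 * 0 + 1) := ⟨fun w => if w ∈ X2.U then θ w else 0, by
      refine ⟨?_, ⟨?_, ?_⟩, ?_⟩
      · refine (ContDiffOn.continuousOn hθs).congr ?_
        intro w hw
        exact if_pos hw
      · intro z hz c hc v
        show (if X2.act c z ∈ X2.U then θ (X2.act c z) else 0) (fun i => X2.act c (v i)) =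
          (if z ∈ X2.U then θ z else 0) v
        rw [if_pos hz, if_pos (hact z hz c hc)]
        exact congrArg (fun t : ℝ => (-1 : ℝ) • t) (hθb.1 z hz c hc v)
      · intro z hz v i hv
        show (if z ∈ X2.U then θ z else 0) v = 0
        rw [if_pos hz]
        exact (congrArg (fun t : ℝ => (-1 : ℝ) • t) (hθb.2 z hz v i hv)).trans (smul_zero _)
      · intro z hz
        exact if_neg hz⟩
    refine hcl (2 * 0 + 1) rfl η ?_ β ?_
    · refine ContDiffOn.congr hθs ?_
      intro w hw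
      exact if_pos hw
    · intro z hz v
      have he : η.1 =ᶠ[𝓝 z] θ := by
        filter_upwards [isOpen_U.mem_nhds hz] with w hw
        exact if_pos hw
      rw [he.extDeriv_eq]
      have h2 : extDeriv θ z = (-1 : ℝ) • extDeriv (fun w =>
          (extDeriv φ.1 w).compContinuousLinearMap (mulC 7 Complex.I)) z :=
        extDeriv_smul (-1 : ℝ) (fun w =>
          (extDeriv φ.1 w).compContinuousLinearMap (mulC 7 Complex.I))
      rw [h2, hβ z hz, ddc, neg_smul, one_smul]
      rfl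
  refine ⟨c, T, 0, 0, 0, 0, 0, (sub_zero T).symm, hpos, zpos _, zpos _, zpos _, zpos _, zpos _,
    zcl _, zcl _, zcl _, zcl _, hddc, ?_, c, 0, 0, 0, hc, ?_, ?_, ?_, ?_⟩
  · refine ⟨fun _ _ _ _ _ => rfl, ?_⟩
    intro φ hφ _ β hβ
    rw [sub_zero]
    rfl
  · exact fun β hβ => le_refl _
  · exact fun β hβ => le_refl _
  · exact fun β hβ => le_refl _
  · simp

end Pool.Agent.SIU.H43
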